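import Pool.Agent.Helper79.HC.Defs
import Pool.Agent.Helper21.HC.Ty
import Pool.Agent.Helper42.HC.Match
import Pool.Agent.Helper79.HC.Rot

/-!
# HC-12: the exterior sides of the big cluster
-/

set_option autoImplicit false

namespace Pool.Agent.Helper79.HC

open MeasureTheory Set

theorem ext_aux_num {A D : ℤ} (hD : 10 ≤ D) {c : ℤ × ℤ} (hc : InK A D c)
    (hn : ¬ Near A D c) {k : Fin 6} (hk : ¬ InK A D (c + dl k)) :
    (∃ r : Fin 6, w A r c = 0 ∧ (k - r = 0 ∨ k - r = 5)) ∨
    (∃ r : Fin 6, w A r c + w A (r + 1) c = D - 2 ∧ (k - r = 0 ∨ k - r = 1 ∨ k - r = 5)) ∨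
    (∃ r : Fin 6, w A r c + w A (r + 1) c = D - 1 ∧ k - r = 0) := by
  obtain ⟨x, y⟩ := c
  simp only [InK, not_forall] at hk
  obtain ⟨r, hr⟩ := hk
  simp only [Near, not_exists] at hn
  have h1 := hc r
  have h2 := hn r
  by_cases hz : w A r (x, y) = 0
  · left
    refine ⟨r, hz, ?_⟩
    by_contra hcon
    fin_cases r <;> fin_cases k <;>
      first
        | exact absurd (by decide) hcon
        | (clear hcon; simp [w, dl] at h1 h2 hr hz; omega)
  · by_cases hz2 : w A (r + 1) (x, y) = 0
    · exfalso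
      fin_cases r <;> fin_cases k <;> simp [w, dl] at h1 h2 hr hz hz2 <;> omega
    · right
      by_cases hs : w A r (x, y) + w A (r + 1) (x, y) = D - 2
      · left
        refine ⟨r, hs, ?_⟩
        by_contra hcon
        fin_cases r <;> fin_cases k <;>
          first
            | exact absurd (by decide) hcon
            | (clear hcon; simp [w, dl] at h1 h2 hr hz hz2 hs; omega)
      · right
        refine ⟨r, ?_, ?_⟩
        · fin_cases r <;> fin_cases k <;> simp [w, dl] at h1 h2 hr hz hz2 hs ⊢ <;> omega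
        · by_contra hcon
          fin_cases r <;> fin_cases k <;>
            first
              | exact absurd (by decide) hcon
              | (clear hcon; simp [w, dl] at h1 h2 hr hz hz2 hs; omega)

open Classical in
/-- HC-12 -/
theorem ext_big {A D : ℤ} (hD : 10 ≤ D) (hA : 4 * D ≤ A) {c : ℤ × ℤ} (hc : InK A D c)
    (hn : ¬ Near A D c) :
    ∑ k ∈ Finset.univ.filter (fun k => ¬ InK A D (c + dl k)), (cellAt A D c).plen k ≤
      (if (ty A D c).1 = 0 ∨ (ty A D c).1 = 1 ∨ (ty A D c).1 = 4 then
        (proto (ty A D c).1).plen (sp (ty A D c).1) else 0) := by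
  have hlen : ∀ (C : Cell) (k : Fin 6), 0 ≤ C.plen k := by
    intro C k
    unfold Cell.plen len
    exact intervalIntegral.integral_nonneg zero_le_one fun t _ => norm_nonneg _
  have hcell : ∀ k, (cellAt A D c).plen k = (proto (ty A D c).1).plen (k - (ty A D c).2) := by
    intro k
    rw [cellAt, if_pos hc, plen_rot]
  have key : ∀ k, ¬ InK A D (c + dl k) →
      ((ty A D c).1 = 0 ∨ (ty A D c).1 = 1 ∨ (ty A D c).1 = 4) ∧
      (k - (ty A D c).2 = sp (ty A D c).1 ∨ (cellAt A D c).plen k = 0) := by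
    intro k hk
    rw [hcell k]
    rcases ext_aux_num hD hc hn hk with ⟨r, hr, hkr⟩ | ⟨r, hr, hkr⟩ | ⟨r, hr, hkr⟩
    · have h1 := ty_eq_Z hD hA hc r hr
      rw [h1]
      refine ⟨Or.inr (Or.inr rfl), ?_⟩
      rcases hkr with h | h
      · right
        show (proto 4).plen (k - r) = 0
        rw [h]; exact plen_zero.2.2
      · left; exact h
    · have h1 := ty_eq_T hD hA hc r 0 (by simpa using hr)
      rw [h1]
      refine ⟨Or.inl rfl, ?_⟩
      rcases hkr with h | h | h
      · left; exact h
      · right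
        show (proto 0).plen (k - r) = 0
        rw [h]; exact plen_zero.1
      · right
        show (proto 0).plen (k - r) = 0
        rw [h]; exact plen_zero.2.1
    · have h0 : (((1 : Fin 4) : ℕ) : ℤ) = 1 := rfl
      have h1 := ty_eq_T hD hA hc r 1 (by rw [hr, h0]; ring)
      rw [h1]
      exact ⟨Or.inr (Or.inl rfl), Or.inl hkr⟩
  set S := Finset.univ.filter (fun k => ¬ InK A D (c + dl k)) with hS
  by_cases hne : S.Nonempty
  · obtain ⟨k, hk⟩ := hne
    have h1 := (key k (Finset.mem_filter.1 hk).2).1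
    rw [if_pos h1]
    set k₀ : Fin 6 := sp (ty A D c).1 + (ty A D c).2 with hk₀
    have h2 : ∀ j ∈ S, j ≠ k₀ → (cellAt A D c).plen j = 0 := by
      intro j hj hjk
      rcases (key j (Finset.mem_filter.1 hj).2).2 with h | h
      · exact absurd (eq_add_of_sub_eq h) hjk
      · exact h
    by_cases hmem : k₀ ∈ S
    · rw [Finset.sum_eq_single_of_mem k₀ hmem h2, hcell, hk₀, add_sub_cancel_right]
    · rw [Finset.sum_eq_zero fun j hj => h2 j hj fun h => hmem (h ▸ hj)]
      exact hlen _ _
  · rw [Finset.not_nonempty_iff_eq_empty.1 hne, Finset.sum_empty]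
    split_ifs
    · exact hlen _ _
    · exact le_rfl

end Pool.Agent.Helper79.HC
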